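import Pool.Agent.V11187.DG.EvG
import Pool.Agent.Y75.NK.Thm

/-!
Detected elements of `ℤᵐ × G` and residual finiteness.
-/

set_option autoImplicit false

namespace Pool.Agent.V11187.DN

open CategoryTheory
open Pool.Agent.Y75.NK (EF prj tz)
open Pool.Agent.V11187.DT (Fn TreeFn DetF)
open Pool.Agent.Y75.BF (InfOrd)

universe v w

theorem det_comap {G : Type v} {H : Type w} [Group G] [Group H] (f : H →* G) {h : H}
    (hf : DetF G (f h)) : DetF H h := by
  intro H0 hH0 hh
  have hFG : (H0.map f).FG := by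
    obtain ⟨S, hS⟩ := hH0
    classical
    refine ⟨S.image f, ?_⟩
    rw [Finset.coe_image, ← hS, MonoidHom.map_closure]
  obtain ⟨π, _, R, _, s, hT, hs⟩ := hf (H0.map f) hFG ⟨h, hh, rfl⟩
  let e : H0 →* H0.map f := (f.comp H0.subtype).codRestrict _ (fun x => ⟨x, x.2, rfl⟩)
  exact ⟨π, inferInstance, R, inferInstance, s.comp e, hT, hs⟩

/-- One vertex. -/
def ptGraph : SimpleGraph Unit := ⊥

theorem ptTree : ptGraph.IsTree := by
  have h : (⊥ : SimpleGraph Unit).IsTree := SimpleGraph.IsTree.of_subsingleton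
  exact h

theorem fn_int (a : Multiplicative ℤ) (ha : a ≠ 1) : Fn (Multiplicative ℤ) a := by
  refine ⟨fun x => Multiplicative.toAdd x, fun x y _ _ => rfl, fun h => ha ?_⟩
  exact Multiplicative.toAdd.injective h

theorem treeFn_int : TreeFn (Multiplicative ℤ) ⊥ := by
  let act : MulAction (Multiplicative ℤ) Unit :=
    { smul := fun _ u => u
      one_smul := fun _ => rfl
      mul_smul := fun _ _ _ => rfl }
  refine ⟨Unit, act, ptGraph, ptTree, fun g u v h => ?_, fun v x _ => ⟨fun h1 h2 => ?_, fun h => ?_⟩⟩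
  · exact absurd h (by
      intro h
      exact h.elim)
  · rw [Subgroup.mem_bot] at h1
    exact h2 1 one_pos (by rw [h1, one_pow])
  · have hx : x ≠ 1 := by
      rintro rfl
      exact h 1 one_pos (by rw [QuotientGroup.mk_one, one_pow])
    obtain ⟨l, hl, hlx⟩ := fn_int x hx
    let q : Multiplicative ℤ ⧸ (⊥ : Subgroup (Multiplicative ℤ)) ≃* Multiplicative ℤ :=
      QuotientGroup.quotientBot
    refine ⟨fun y => l (q y), fun a b _ _ => ?_, hlx⟩
    change l (q (a * b)) = l (q a) + l (q b)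
    rw [map_mul]
    exact hl _ _ (mul_comm _ _) (mul_comm _ _)

theorem det_int (a : Multiplicative ℤ) (ha : a ≠ 1) : DetF (Multiplicative ℤ) a := by
  intro H0 hH0 hh
  refine ⟨Multiplicative ℤ, inferInstance, ⊥, inferInstance,
    (QuotientGroup.mk' _).comp H0.subtype, treeFn_int, ?_⟩
  intro n hn h1
  have h2 : (QuotientGroup.mk (a ^ n) : Multiplicative ℤ ⧸
      ⁅(⊥ : Subgroup (Multiplicative ℤ)), (⊥ : Subgroup (Multiplicative ℤ))⁆) = 1 := h1
  rw [QuotientGroup.eq_one_iff] at h2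
  have h3 : a ^ n ∈ (⊥ : Subgroup (Multiplicative ℤ)) := Subgroup.commutator_le_right _ _ h2
  rw [Subgroup.mem_bot] at h3
  apply ha
  apply Multiplicative.toAdd.injective
  have h4 : (n : ℤ) * Multiplicative.toAdd a = 0 := by
    have h5 := congrArg Multiplicative.toAdd h3
    rw [toAdd_pow, nsmul_eq_mul, toAdd_one] at h5
    exact h5
  rcases mul_eq_zero.1 h4 with h5 | h5
  · exact absurd (by exact_mod_cast h5) hn.ne'
  · rw [h5, toAdd_one]

/-- The elements `≠ 1` of `ℤᵐ × G` have a nontrivial coordinate. -/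
theorem exists_coord : ∀ (m : ℕ) (G : GrpCat.{0}) (x : (EF m).obj G), x ≠ 1 → prj m G x = 1 →
    ∃ c : (EF m).obj G →* Multiplicative ℤ, c x ≠ 1
  | 0, G, x, hx, hp => absurd hp hx
  | m + 1, G, x, hx, hp => by
    by_cases h : prj m (tz.obj G) x = 1
    · exact exists_coord m (tz.obj G) x hx h
    · refine ⟨(MonoidHom.fst (Multiplicative ℤ) G).comp (prj m (tz.obj G)), fun h1 => h ?_⟩
      exact Prod.ext h1 hp

theorem det_EF (m : ℕ) (G : GrpCat.{0}) (hG : ∀ h : G, h ≠ 1 → DetF G h)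
    (x : (EF m).obj G) (hx : x ≠ 1) : DetF ((EF m).obj G) x := by
  by_cases h : prj m G x = 1
  · obtain ⟨c, hc⟩ := exists_coord m G x hx h
    exact det_comap c (det_int _ hc)
  · exact det_comap (prj m G) (hG _ h)

/-- residually finite -/
def RF (G : Type w) [Group G] : Prop :=
  ∀ g : G, g ≠ 1 → ∃ N : Subgroup G, N.Normal ∧ N.FiniteIndex ∧ g ∉ N

theorem int_rf (a : Multiplicative ℤ) (ha : a ≠ 1) :
    ∃ (Q : Type) (_ : Group Q) (_ : Finite Q) (f : Multiplicative ℤ →* Q), f a ≠ 1 := by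
  have ha' : Multiplicative.toAdd a ≠ 0 := fun h => ha (Multiplicative.toAdd.injective h)
  let k : ℕ := (Multiplicative.toAdd a).natAbs + 1
  have hk : k ≠ 0 := Nat.succ_ne_zero _
  haveI : NeZero k := ⟨hk⟩
  refine ⟨Multiplicative (ZMod k), inferInstance, inferInstance,
    (Int.castAddHom (ZMod k)).toMultiplicative, fun h => ?_⟩
  have h1 : ((Multiplicative.toAdd a : ℤ) : ZMod k) = 0 := Multiplicative.ofAdd.injective h
  rw [ZMod.intCast_zmod_eq_zero_iff_dvd] at h1
  have h2 := Int.natAbs_dvd_natAbs.2 h1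
  rw [Int.natAbs_natCast] at h2
  have h3 := Nat.le_of_dvd (Int.natAbs_pos.2 ha') h2
  omega

theorem rf_of_hom {H : Type w} [Group H] {h : H} {Q : Type v} [Group Q] [Finite Q] (f : H →* Q)
    (hf : f h ≠ 1) : ∃ N : Subgroup H, N.Normal ∧ N.FiniteIndex ∧ h ∉ N :=
  ⟨f.ker, inferInstance, inferInstance, fun h1 => hf (MonoidHom.mem_ker.1 h1)⟩

theorem rf_EF (m : ℕ) (G : GrpCat.{0}) (hG : ∀ H : Subgroup G, H.FG → RF H)
    (H : Subgroup ((EF m).obj G)) (hH : H.FG) : RF H := by
  intro g hg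
  by_cases h : prj m G g.1 = 1
  · obtain ⟨c, hc⟩ := exists_coord m G g.1 (fun h => hg (Subtype.ext h)) h
    obtain ⟨Q, _, _, f, hf⟩ := int_rf _ hc
    exact rf_of_hom ((f.comp c).comp H.subtype) hf
  · have hFG : (H.map (prj m G)).FG := by
      obtain ⟨S, hS⟩ := hH
      classical
      refine ⟨S.image (prj m G), ?_⟩
      rw [Finset.coe_image, ← hS, MonoidHom.map_closure]
    let e : H →* H.map (prj m G) :=
      ((prj m G).comp H.subtype).codRestrict _ (fun x => ⟨x, x.2, rfl⟩)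
    obtain ⟨N, hN, hN', hgN⟩ := hG _ hFG (e g) (fun h1 => h (congrArg Subtype.val h1))
    have hfin : Finite (H.map (prj m G) ⧸ N) := Subgroup.finite_quotient_of_finiteIndex
    exact rf_of_hom ((QuotientGroup.mk' N).comp e) (fun h1 => hgN ((QuotientGroup.eq_one_iff _).1 h1))

theorem tf_EF : ∀ (m : ℕ) (G : GrpCat.{0}), (∀ g : G, IsOfFinOrder g → g = 1) →
    ∀ g : (EF m).obj G, IsOfFinOrder g → g = 1
  | 0, G, hG => hG
  | m + 1, G, hG => by
    refine tf_EF m (tz.obj G) ?_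
    rintro ⟨a, b⟩ h
    have h1 : IsOfFinOrder b := (MonoidHom.snd (Multiplicative ℤ) G).isOfFinOrder h
    have h2 : IsOfFinOrder a := (MonoidHom.fst (Multiplicative ℤ) G).isOfFinOrder h
    refine Prod.ext ?_ (hG b h1)
    by_contra hne
    obtain ⟨n, hn, hn1⟩ := isOfFinOrder_iff_pow_eq_one.1 h2
    exact (fn_int a hne).infOrd n hn hn1

end Pool.Agent.V11187.DN
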